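import Pool.Agent.Q123.CD.Coset

/-!
# The quadric difference sets are Boolean combinations of few cosets
-/

set_option autoImplicit false

open Finset

namespace Q123.CD

/-- The sign character of `ZMod 2`. -/
def sgn (a : ZMod 2) : ℤ := if a = 0 then 1 else -1

lemma sgn_add : ∀ a b : ZMod 2, sgn (a + b) = sgn a * sgn b := by decide

lemma sgn_sum {ι : Type*} (I : Finset ι) (f : ι → ZMod 2) :
    sgn (∑ i ∈ I, f i) = ∏ i ∈ I, sgn (f i) := by
  classical
  induction I using Finset.induction_on with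
  | empty => simp [sgn]
  | insert a I ha ih => rw [Finset.sum_insert ha, Finset.prod_insert ha, sgn_add, ih]

/-- The vector space. -/
abbrev V (m : ℕ) := Fin m → ZMod 2 × ZMod 2

/-- The quadratic form. -/
def q {m : ℕ} (z : V m) : ZMod 2 := ∑ i, (z i).1 * (z i).2

lemma local_sum : ∑ z : ZMod 2 × ZMod 2, sgn (z.1 * z.2) = 2 := by decide

lemma local_corr : ∀ w : ZMod 2 × ZMod 2, ∑ z : ZMod 2 × ZMod 2,
    sgn (z.1 * z.2) * sgn ((z.1 + w.1) * (z.2 + w.2)) = if w = 0 then 4 else 0 := by decide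

lemma sum_sgn (m : ℕ) : ∑ z : V m, sgn (q z) = 2 ^ m := by
  unfold q
  simp_rw [sgn_sum]
  have h := Finset.prod_univ_sum (fun _ : Fin m => (univ : Finset (ZMod 2 × ZMod 2)))
    (fun _ z => sgn (z.1 * z.2))
  rw [Fintype.piFinset_univ] at h
  rw [← h]
  simp only [local_sum, Finset.prod_const, Finset.card_univ, Fintype.card_fin]

lemma corr (m : ℕ) (w : V m) (hw : w ≠ 0) : ∑ z : V m, sgn (q z) * sgn (q (z + w)) = 0 := by
  unfold q
  simp_rw [sgn_sum, ← Finset.prod_mul_distrib]
  have h := Finset.prod_univ_sum (fun _ : Fin m => (univ : Finset (ZMod 2 × ZMod 2)))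
    (fun i z => sgn (z.1 * z.2) * sgn ((z.1 + (w i).1) * (z.2 + (w i).2)))
  rw [Fintype.piFinset_univ] at h
  simp only [Pi.add_apply, Prod.fst_add, Prod.snd_add]
  rw [← h]
  obtain ⟨i, hi⟩ : ∃ i, w i ≠ 0 := by
    by_contra h1
    push Not at h1
    exact hw (funext h1)
  apply Finset.prod_eq_zero (mem_univ i)
  rw [local_corr, if_neg hi]

lemma ind_eq (a : ZMod 2) : (if a = 1 then (1 : ℤ) else 0) * 2 = 1 - sgn a := by
  revert a; decide

lemma card_V (m : ℕ) : (Fintype.card (V m) : ℤ) = 4 ^ m := by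
  simp [V]

/-- The quadric. -/
def quad (m : ℕ) : Finset (Multiplicative (V m)) :=
  univ.filter fun z => q (Multiplicative.toAdd z) = 1

lemma card_quad (m : ℕ) : ((quad m).card : ℤ) * 2 = 4 ^ m - 2 ^ m := by
  unfold quad
  have h1 : ((univ.filter fun z : Multiplicative (V m) =>
      q (Multiplicative.toAdd z) = 1).card : ℤ) =
      ∑ z : Multiplicative (V m), (if q (Multiplicative.toAdd z) = 1 then (1 : ℤ) else 0) := by
    rw [Finset.sum_boole]
  rw [h1, Finset.sum_mul]
  simp_rw [ind_eq]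
  rw [Finset.sum_sub_distrib, Finset.sum_const, Finset.card_univ, nsmul_eq_mul, mul_one]
  have h2 : (Fintype.card (Multiplicative (V m)) : ℤ) = 4 ^ m := by
    rw [Fintype.card_multiplicative, card_V]
  have h3 : ∑ z : Multiplicative (V m), sgn (q (Multiplicative.toAdd z)) = 2 ^ m := by
    rw [← sum_sgn m]
    exact Fintype.sum_equiv Multiplicative.toAdd _ _ (fun _ => rfl)
  rw [h2, h3]

lemma corr_quad (m : ℕ) (g : Multiplicative (V m)) (hg : g ≠ 1) :
    ((((quad m) ×ˢ (quad m)).filter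
      (fun p : Multiplicative (V m) × Multiplicative (V m) => p.1 * p.2⁻¹ = g)).card : ℤ) * 4 =
      4 ^ m - 2 * 2 ^ m := by
  set w : V m := Multiplicative.toAdd g with hw
  have hw0 : w ≠ 0 := by
    intro h
    apply hg
    exact Multiplicative.toAdd.injective (by rw [← hw, h]; rfl)
  have h1 : (((quad m) ×ˢ (quad m)).filter
      (fun p : Multiplicative (V m) × Multiplicative (V m) => p.1 * p.2⁻¹ = g)).card =
      (univ.filter fun z : V m => q z = 1 ∧ q (z + w) = 1).card := by
    apply Finset.card_bij (fun p _ => Multiplicative.toAdd p.2)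
    · rintro ⟨a, b⟩ hab
      simp only [quad, mem_filter, mem_product, mem_univ, true_and] at hab
      simp only [mem_filter, mem_univ, true_and]
      refine ⟨hab.1.2, ?_⟩
      have h2 : Multiplicative.toAdd b + w = Multiplicative.toAdd a := by
        rw [hw, ← hab.2, toAdd_mul, toAdd_inv]
        abel
      rw [h2]; exact hab.1.1
    · rintro ⟨a, b⟩ hab ⟨c, d⟩ hcd h
      simp only [mem_filter, mem_product] at hab hcd h
      have h2 : b = d := Multiplicative.toAdd.injective h
      subst h2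
      have h3 : a = g * b := by rw [← hab.2]; group
      have h4 : c = g * b := by rw [← hcd.2]; group
      rw [h3, h4]
    · intro z hz
      simp only [mem_filter, mem_univ, true_and] at hz
      refine ⟨(Multiplicative.ofAdd (z + w), Multiplicative.ofAdd z), ?_, rfl⟩
      simp only [quad, mem_filter, mem_product, mem_univ, true_and, toAdd_ofAdd]
      refine ⟨⟨hz.2, hz.1⟩, ?_⟩
      apply Multiplicative.toAdd.injective
      rw [toAdd_mul, toAdd_inv, toAdd_ofAdd, toAdd_ofAdd, ← hw]
      abel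
  rw [h1]
  have h2 : ((univ.filter fun z : V m => q z = 1 ∧ q (z + w) = 1).card : ℤ) =
      ∑ z : V m, (if q z = 1 then (1 : ℤ) else 0) * (if q (z + w) = 1 then (1 : ℤ) else 0) := by
    have h3 : ∀ z : V m, (if q z = 1 then (1 : ℤ) else 0) * (if q (z + w) = 1 then (1 : ℤ) else 0) =
        if (q z = 1 ∧ q (z + w) = 1) then 1 else 0 := by
      intro z
      by_cases h4 : q z = 1 <;> by_cases h5 : q (z + w) = 1 <;> simp [h4, h5]
    simp_rw [h3]
    rw [Finset.sum_boole]
  rw [h2, Finset.sum_mul]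
  have h3 : ∀ z : V m, (if q z = 1 then (1 : ℤ) else 0) * (if q (z + w) = 1 then (1 : ℤ) else 0) * 4 =
      1 - sgn (q z) - sgn (q (z + w)) + sgn (q z) * sgn (q (z + w)) := by
    intro z
    have h4 := ind_eq (q z)
    have h5 := ind_eq (q (z + w))
    calc _ = ((if q z = 1 then (1 : ℤ) else 0) * 2) * ((if q (z + w) = 1 then (1 : ℤ) else 0) * 2) := by
          ring
      _ = (1 - sgn (q z)) * (1 - sgn (q (z + w))) := by rw [h4, h5]
      _ = _ := by ring
  simp_rw [h3]
  rw [Finset.sum_add_distrib, Finset.sum_sub_distrib, Finset.sum_sub_distrib, corr m w hw0,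
    Finset.sum_const, Finset.card_univ, nsmul_eq_mul, mul_one, card_V, sum_sgn]
  have h6 : ∑ z : V m, sgn (q (z + w)) = 2 ^ m := by
    rw [← sum_sgn m]
    exact Fintype.sum_equiv (Equiv.addRight w) _ _ (fun _ => rfl)
  rw [h6]
  ring

theorem quad_isDS (t : ℕ) : IsDS (quad (t + 1)) (2 * 4 ^ t - 2 ^ t) (4 ^ t - 2 ^ t) := by
  have h0 : 2 ^ t ≤ 4 ^ t := Nat.pow_le_pow_left (by norm_num) t
  constructor
  · have h := card_quad (t + 1)
    have h1 : 2 ^ t ≤ 2 * 4 ^ t := by omega
    zify [h1]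
    rw [pow_succ, pow_succ] at h
    linarith
  · intro g hg
    have h := corr_quad (t + 1) g hg
    zify [h0]
    rw [pow_succ, pow_succ] at h
    linarith

/-- The hyperplane `x_i = 1`. -/
lemma hyper_coset {m : ℕ} (ℓ : V m →+ ZMod 2) (z₀ : V m) (hz₀ : ℓ z₀ = 1) :
    ∃ (a b : Multiplicative (V m)) (H : Subgroup (Multiplicative (V m))),
      {z : Multiplicative (V m) | ℓ (Multiplicative.toAdd z) = 1} = {x | ∃ h ∈ H, x = a * h * b} := by
  refine ⟨Multiplicative.ofAdd z₀, 1, AddSubgroup.toSubgroup ℓ.ker, ?_⟩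
  ext z
  simp only [Set.mem_ofPred_eq, mul_one]
  constructor
  · intro h
    refine ⟨Multiplicative.ofAdd (Multiplicative.toAdd z - z₀), ?_, ?_⟩
    · change ℓ (Multiplicative.toAdd z - z₀) = 0
      rw [map_sub, h, hz₀, sub_self]
    · apply Multiplicative.toAdd.injective
      rw [toAdd_mul, toAdd_ofAdd, toAdd_ofAdd]
      abel
  · rintro ⟨h, hh, rfl⟩
    have h1 : ℓ (Multiplicative.toAdd h) = 0 := hh
    rw [toAdd_mul, toAdd_ofAdd, map_add, h1, hz₀, add_zero]

theorem quad_combination (m : ℕ) : IsCosetCombination (m + m) (quad m) := by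
  classical
  set ℓ₁ : Fin m → (V m →+ ZMod 2) := fun i =>
    (AddMonoidHom.fst (ZMod 2) (ZMod 2)).comp (Pi.evalAddMonoidHom (fun _ => ZMod 2 × ZMod 2) i)
    with h1
  set ℓ₂ : Fin m → (V m →+ ZMod 2) := fun i =>
    (AddMonoidHom.snd (ZMod 2) (ZMod 2)).comp (Pi.evalAddMonoidHom (fun _ => ZMod 2 × ZMod 2) i)
    with h2
  set ℓ : Fin (m + m) → (V m →+ ZMod 2) := fun i => Sum.elim ℓ₁ ℓ₂ (finSumFinEquiv.symm i) with hℓ
  set C : Fin (m + m) → Set (Multiplicative (V m)) :=
    fun i => {z | ℓ i (Multiplicative.toAdd z) = 1} with hC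
  have hone : ∀ i, ∃ z₀ : V m, ℓ i z₀ = 1 := by
    intro i
    refine ⟨fun _ => (1, 1), ?_⟩
    simp only [hℓ]
    rcases finSumFinEquiv.symm i with j | j <;> simp [h1, h2]
  refine ⟨C, {S | ∃ z ∈ quad m, S = {i | z ∈ C i}}, ?_, ?_⟩
  · intro i
    obtain ⟨z₀, hz₀⟩ := hone i
    exact hyper_coset (ℓ i) z₀ hz₀
  · intro x
    constructor
    · intro hx; exact ⟨x, hx, rfl⟩
    · rintro ⟨z, hz, hzx⟩
      have hdet : ∀ a b : ZMod 2, (a = 1 ↔ b = 1) → a = b := by decide
      have h3 : ∀ i, ℓ i (Multiplicative.toAdd x) = ℓ i (Multiplicative.toAdd z) := by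
        intro i
        apply hdet
        have := Set.ext_iff.1 hzx i
        simpa [hC] using this
      have h4 : x = z := by
        apply Multiplicative.toAdd.injective
        funext j
        apply Prod.ext
        · have := h3 (finSumFinEquiv (Sum.inl j))
          simp only [hℓ, Equiv.symm_apply_apply, Sum.elim_inl, h1] at this
          exact this
        · have := h3 (finSumFinEquiv (Sum.inr j))
          simp only [hℓ, Equiv.symm_apply_apply, Sum.elim_inr, h2] at this
          exact this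
      rw [h4]; exact hz

end Q123.CD
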