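import Pool.Agent.Q123.CD.Main

/-!
# Boolean combinations of cosets
-/

set_option autoImplicit false

open Finset

namespace Q123.CD

section Mobius

variable {α : Type*} [DecidableEq α]

lemma sum_Icc_sign (T E : Finset α) (hTE : T ⊆ E) :
    ∑ S ∈ Finset.Icc T E, (-1 : ℝ) ^ (S \ T).card = if T = E then 1 else 0 := by
  rw [Finset.Icc_eq_image_powerset hTE, Finset.sum_image]
  · have h1 : ∀ R ∈ (E \ T).powerset, (-1 : ℝ) ^ ((T ∪ R) \ T).card = (-1 : ℝ) ^ R.card := by
      intro R hR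
      rw [Finset.union_sdiff_cancel_left]
      rw [mem_powerset] at hR
      exact Finset.disjoint_of_subset_right hR Finset.disjoint_sdiff
    rw [Finset.sum_congr rfl h1]
    have h2 := Finset.sum_powerset_neg_one_pow_card (x := E \ T)
    have h3 : ∑ R ∈ (E \ T).powerset, (-1 : ℝ) ^ R.card =
        ((∑ R ∈ (E \ T).powerset, (-1 : ℤ) ^ R.card : ℤ) : ℝ) := by
      push_cast; rfl
    rw [h3, h2]
    by_cases h : T = E
    · subst h; simp
    · have h4 : E \ T ≠ ∅ := by
        intro h5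
        exact h (Finset.Subset.antisymm hTE (Finset.sdiff_eq_empty_iff_subset.1 h5))
      simp [h, h4]
  · intro a ha b hb hab
    have ha' : Disjoint T a := Finset.disjoint_of_subset_right (mem_powerset.1 ha) Finset.disjoint_sdiff
    have hb' : Disjoint T b := Finset.disjoint_of_subset_right (mem_powerset.1 hb) Finset.disjoint_sdiff
    have h1 := Finset.union_sdiff_cancel_left ha'
    have h2 := Finset.union_sdiff_cancel_left hb'
    simp only at hab
    rw [← h1, ← h2, hab]

/-- The Moebius coefficients. -/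
noncomputable def mob (φ : Finset α → ℝ) (S : Finset α) : ℝ :=
  ∑ T ∈ S.powerset, (-1 : ℝ) ^ (S \ T).card * φ T

lemma mobius (φ : Finset α → ℝ) (E : Finset α) : ∑ S ∈ E.powerset, mob φ S = φ E := by
  unfold mob
  rw [Finset.sum_comm' (t' := E.powerset) (s' := fun T => Finset.Icc T E)]
  · have h1 : ∀ T ∈ E.powerset, ∑ S ∈ Finset.Icc T E, (-1 : ℝ) ^ (S \ T).card * φ T =
        if T = E then φ T else 0 := by
      intro T hT
      rw [← Finset.sum_mul, sum_Icc_sign T E (mem_powerset.1 hT)]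
      split_ifs <;> ring
    rw [Finset.sum_congr rfl h1, Finset.sum_ite_eq', if_pos (mem_powerset_self E)]
  · intro S T
    simp only [mem_powerset, Finset.mem_Icc]
    constructor
    · rintro ⟨h1, h2⟩; exact ⟨⟨h2, h1⟩, h2.trans h1⟩
    · rintro ⟨⟨h1, h2⟩, h3⟩; exact ⟨h2, h1⟩

lemma mob_le (φ : Finset α → ℝ) (h0 : ∀ T, 0 ≤ φ T) (h1 : ∀ T, φ T ≤ 1) (S : Finset α)
    (hS : S.Nonempty) : |mob φ S| ≤ 2 ^ S.card / 2 := by
  obtain ⟨a, ha⟩ := hS
  obtain ⟨S', haS', rfl⟩ : ∃ S', a ∉ S' ∧ insert a S' = S :=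
    ⟨S.erase a, by simp, Finset.insert_erase ha⟩
  unfold mob
  rw [Finset.sum_powerset_insert haS']
  have h2 : ∀ T ∈ S'.powerset, (-1 : ℝ) ^ (insert a S' \ T).card * φ T =
      - ((-1 : ℝ) ^ (S' \ T).card * φ T) := by
    intro T hT
    have haT : a ∉ T := fun h => haS' (mem_powerset.1 hT h)
    rw [Finset.insert_sdiff_of_notMem _ haT, Finset.card_insert_of_notMem (by simp [haS']), pow_succ]
    ring
  have h3 : ∀ T ∈ S'.powerset, (-1 : ℝ) ^ (insert a S' \ insert a T).card * φ (insert a T) =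
      (-1 : ℝ) ^ (S' \ T).card * φ (insert a T) := by
    intro T hT
    have h4 : insert a S' \ insert a T = S' \ T := by
      ext x
      simp only [mem_sdiff, mem_insert, not_or]
      constructor
      · rintro ⟨h5 | h5, h6, h7⟩
        · exact absurd h5 h6
        · exact ⟨h5, h7⟩
      · rintro ⟨h5, h6⟩
        exact ⟨Or.inr h5, fun h => haS' (h ▸ h5), h6⟩
    rw [h4]
  rw [Finset.sum_congr rfl h2, Finset.sum_congr rfl h3, ← Finset.sum_add_distrib]
  refine (Finset.abs_sum_le_sum_abs _ _).trans ?_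
  have h5 : ∀ T ∈ S'.powerset, |-((-1 : ℝ) ^ (S' \ T).card * φ T) +
      (-1 : ℝ) ^ (S' \ T).card * φ (insert a T)| ≤ 1 := by
    intro T _
    have h6 : -((-1 : ℝ) ^ (S' \ T).card * φ T) + (-1 : ℝ) ^ (S' \ T).card * φ (insert a T) =
        (-1 : ℝ) ^ (S' \ T).card * (φ (insert a T) - φ T) := by ring
    rw [h6, abs_mul, abs_pow, abs_neg, abs_one, one_pow, one_mul, abs_le]
    constructor
    · linarith [h0 (insert a T), h1 T]
    · linarith [h1 (insert a T), h0 T]
  refine (Finset.sum_le_sum h5).trans ?_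
  rw [Finset.sum_const, Finset.card_powerset, nsmul_eq_mul, mul_one,
    Finset.card_insert_of_notMem haS', pow_succ]
  push_cast
  linarith

lemma sum_mob_le [Fintype α] (φ : Finset α → ℝ) (h0 : ∀ T, 0 ≤ φ T) (h1 : ∀ T, φ T ≤ 1) :
    ∑ S ∈ (univ : Finset (Finset α)).erase ∅, |mob φ S| ≤ (3 ^ (Fintype.card α) - 1) / 2 := by
  have h2 : ∑ S ∈ (univ : Finset (Finset α)).erase ∅, |mob φ S| ≤
      ∑ S ∈ (univ : Finset (Finset α)).erase ∅, (2 : ℝ) ^ S.card / 2 :=
    Finset.sum_le_sum fun S hS =>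
      mob_le φ h0 h1 S (Finset.nonempty_iff_ne_empty.2 (Finset.ne_of_mem_erase hS))
  refine h2.trans ?_
  have h3 := Finset.sum_pow_mul_eq_add_pow (2 : ℝ) 1 (univ : Finset α)
  simp only [one_pow, mul_one, Finset.powerset_univ, Finset.card_univ] at h3
  have h4 := Finset.add_sum_erase (univ : Finset (Finset α)) (fun S => (2 : ℝ) ^ S.card)
    (mem_univ ∅)
  simp only [Finset.card_empty, pow_zero] at h4
  rw [← Finset.sum_div]
  have h5 : (2 : ℝ) + 1 = 3 := by norm_num
  rw [h5] at h3
  rw [← h4] at h3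
  rw [← h3]
  linarith

end Mobius

variable {G : Type*} [Group G] [Fintype G] [DecidableEq G]

/-- `D` is a Boolean combination of `s` cosets `a H b` of subgroups `H`. -/
def IsCosetCombination (s : ℕ) (D : Finset G) : Prop :=
  ∃ (C : Fin s → Set G) (𝓕 : Set (Set (Fin s))),
    (∀ i, ∃ (a b : G) (H : Subgroup G), C i = {x | ∃ h ∈ H, x = a * h * b}) ∧
    ∀ x, x ∈ D ↔ {i | x ∈ C i} ∈ 𝓕

omit [Fintype G] [DecidableEq G] in
/-- Every coset is a left coset. -/
lemma left_coset (a b : G) (H : Subgroup G) :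
    ∃ (c : G) (K : Subgroup G), ∀ g x : G,
      (g⁻¹ * x ∈ {x | ∃ h ∈ H, x = a * h * b}) ↔ ((x : G ⧸ K) = ((g * c : G) : G ⧸ K)) := by
  refine ⟨a * b, H.comap (MulAut.conj b).toMonoidHom, fun g x => ?_⟩
  rw [eq_comm, QuotientGroup.eq, Subgroup.mem_comap]
  simp only [Set.mem_ofPred_eq, MulEquiv.coe_toMonoidHom, MulAut.conj_apply]
  have h1 : b * ((g * (a * b))⁻¹ * x) * b⁻¹ = a⁻¹ * (g⁻¹ * x) * b⁻¹ := by group
  rw [h1]
  constructor
  · rintro ⟨h, hh, hx⟩
    rw [hx]
    have : a⁻¹ * (a * h * b) * b⁻¹ = h := by group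
    rwa [this]
  · intro h
    exact ⟨_, h, by group⟩

theorem coset_bound (D : Finset G) {k lam s : ℕ} (h : IsDS D k lam)
    (hv2 : 1 < Fintype.card G) (hD : IsCosetCombination s D) :
    Real.sqrt ((k : ℝ) - lam) * ((Fintype.card G : ℝ) - 1) ≤
      (3 ^ s - 1) / 2 * (Fintype.card G : ℝ) := by
  classical
  obtain ⟨C, 𝓕, hC, hD⟩ := hD
  have hC' : ∀ i, ∃ (c : G) (K : Subgroup G), ∀ g x : G,
      (g⁻¹ * x ∈ C i) ↔ ((x : G ⧸ K) = ((g * c : G) : G ⧸ K)) := by
    intro i
    obtain ⟨a, b, H, hi⟩ := hC i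
    obtain ⟨c, K, hK⟩ := left_coset a b H
    exact ⟨c, K, fun g x => by rw [hi]; exact hK g x⟩
  choose c K hK using hC'
  set φ : Finset (Fin s) → ℝ := fun T => if (T : Set (Fin s)) ∈ 𝓕 then 1 else 0 with hφ
  have h0 : ∀ T, 0 ≤ φ T := fun T => by simp only [hφ]; split_ifs <;> norm_num
  have h1 : ∀ T, φ T ≤ 1 := fun T => by simp only [hφ]; split_ifs <;> norm_num
  have hv : (1 : ℝ) < (Fintype.card G : ℝ) := by exact_mod_cast hv2
  have key := combination D h hv ((univ : Finset (Finset (Fin s))).erase ∅) (mob φ ∅) (mob φ)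
    (L := fun S => (i : S) → G ⧸ K i) (fun S x i => (x : G ⧸ K i))
    (fun S g i => ((g * c i : G) : G ⧸ K i)) (by
      intro x g
      set E : Finset (Fin s) := univ.filter (fun i => g⁻¹ * x ∈ C i) with hE
      have h2 : F D g x = φ E := by
        unfold F
        simp only [hφ]
        have h3 : (E : Set (Fin s)) = {i | g⁻¹ * x ∈ C i} := by
          ext i; simp [hE]
        rw [h3]
        by_cases h4 : g⁻¹ * x ∈ D
        · rw [if_pos h4, if_pos ((hD _).1 h4)]
        · rw [if_neg h4, if_neg (fun h5 => h4 ((hD _).2 h5))]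
      have h3 : ∀ S : Finset (Fin s), ((fun i : S => (x : G ⧸ K i)) =
          fun i : S => ((g * c i : G) : G ⧸ K i)) ↔ S ⊆ E := by
        intro S
        constructor
        · intro h4 i hi
          have := congrFun h4 ⟨i, hi⟩
          simp only [hE, mem_filter, mem_univ, true_and]
          exact (hK i g x).2 this
        · intro h4
          funext i
          have := h4 i.2
          simp only [hE, mem_filter, mem_univ, true_and] at this
          exact (hK i g x).1 this
      have h4 : ∀ S ∈ (univ : Finset (Finset (Fin s))).erase ∅, mob φ S *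
          (if (fun i : S => (x : G ⧸ K i)) = (fun i : S => ((g * c i : G) : G ⧸ K i)) then
            (1 : ℝ) else 0) = if S ⊆ E then mob φ S else 0 := by
        intro S _
        by_cases h5 : S ⊆ E
        · rw [if_pos ((h3 S).2 h5), if_pos h5, mul_one]
        · rw [if_neg (fun h6 => h5 ((h3 S).1 h6)), if_neg h5, mul_zero]
      rw [Finset.sum_congr rfl h4, h2, ← mobius φ E]
      have h6 := Finset.add_sum_erase (univ : Finset (Finset (Fin s)))
        (fun S => if S ⊆ E then mob φ S else 0) (mem_univ ∅)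
      simp only [Finset.empty_subset, if_true] at h6
      rw [h6, ← Finset.sum_filter]
      refine Finset.sum_congr ?_ fun _ _ => rfl
      ext S
      simp)
  refine key.trans ?_
  have h7 := sum_mob_le φ h0 h1
  rw [Fintype.card_fin] at h7
  exact mul_le_mul_of_nonneg_right h7 (by positivity)

end Q123.CD
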