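import Pool.Agent.Q123.CD.Bent

/-!
# Linear combinations, and the Singer parameters
-/

set_option autoImplicit false

open Finset

namespace Q123.CD

/-- Real linear combinations of cosets. -/
theorem linear_bound {G : Type*} [Group G] [Fintype G] [DecidableEq G] (D : Finset G)
    {k lam N : ℕ} (h : IsDS D k lam) (hv2 : 1 < Fintype.card G) (c₀ : ℝ) (c : Fin N → ℝ)
    (C : Fin N → Set G)
    (hC : ∀ i, ∃ (a b : G) (H : Subgroup G), C i = {x | ∃ h ∈ H, x = a * h * b})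
    (hD : ∀ x, Set.indicator (D : Set G) (fun _ => (1 : ℝ)) x =
      c₀ + ∑ i, c i * Set.indicator (C i) (fun _ => (1 : ℝ)) x) :
    Real.sqrt ((k : ℝ) - lam) * ((Fintype.card G : ℝ) - 1) ≤
      (∑ i, |c i|) * (Fintype.card G : ℝ) := by
  classical
  have hC' : ∀ i, ∃ (c : G) (K : Subgroup G), ∀ g x : G,
      (g⁻¹ * x ∈ C i) ↔ ((x : G ⧸ K) = ((g * c : G) : G ⧸ K)) := by
    intro i
    obtain ⟨a, b, H, hi⟩ := hC i
    obtain ⟨c, K, hK⟩ := left_coset a b H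
    exact ⟨c, K, fun g x => by rw [hi]; exact hK g x⟩
  choose e K hK using hC'
  have hv : (1 : ℝ) < (Fintype.card G : ℝ) := by exact_mod_cast hv2
  refine combination D h hv univ c₀ c (L := fun i => G ⧸ K i) (fun i x => (x : G ⧸ K i))
    (fun i g => ((g * e i : G) : G ⧸ K i)) ?_
  intro x g
  have h1 : F D g x = Set.indicator (D : Set G) (fun _ => (1 : ℝ)) (g⁻¹ * x) := by
    unfold F
    by_cases h2 : g⁻¹ * x ∈ D <;> simp [h2]
  rw [h1, hD]
  congr 1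
  refine Finset.sum_congr rfl fun i _ => ?_
  congr 1
  by_cases h2 : g⁻¹ * x ∈ C i
  · rw [Set.indicator_of_mem h2, if_pos ((hK i g x).1 h2)]
  · rw [Set.indicator_of_notMem h2, if_neg (fun h3 => h2 ((hK i g x).2 h3))]

/-- The arithmetic for the Singer parameters. -/
theorem singer_bound {G : Type*} [Group G] [Fintype G] [DecidableEq G] (D : Finset G)
    {n m s k lam : ℕ} (hn : 2 ≤ n) (hm : 3 ≤ m) (hv : Fintype.card G * (n - 1) = n ^ m - 1)
    (hk : k * (n - 1) = n ^ (m - 1) - 1) (hl : lam * (n - 1) = n ^ (m - 2) - 1)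
    (h : IsDS D k lam) (hD : IsCosetCombination s D) : 2 * n ^ (m - 2) < 9 ^ s := by
  obtain ⟨r, rfl⟩ : ∃ r, m = r + 3 := ⟨m - 3, by omega⟩
  obtain ⟨u, rfl⟩ : ∃ u, n = u + 2 := ⟨n - 2, by omega⟩
  have e1 : r + 3 - 1 = r + 2 := by omega
  have e2 : r + 3 - 2 = r + 1 := by omega
  have e3 : u + 2 - 1 = u + 1 := by omega
  rw [e3] at hv hk hl
  rw [e1] at hk
  rw [e2] at hl ⊢
  set N : ℝ := ((u : ℝ) + 2) with hN
  have p1 : 1 ≤ (u + 2) ^ (r + 3) := Nat.one_le_pow _ _ (by omega)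
  have p2 : 1 ≤ (u + 2) ^ (r + 2) := Nat.one_le_pow _ _ (by omega)
  have p3 : 1 ≤ (u + 2) ^ (r + 1) := Nat.one_le_pow _ _ (by omega)
  have hv' : (Fintype.card G : ℝ) * ((u : ℝ) + 1) = N ^ (r + 3) - 1 := by
    have := congrArg (Nat.cast : ℕ → ℝ) hv
    rw [Nat.cast_sub p1] at this
    push_cast at this
    linarith
  have hk' : (k : ℝ) * ((u : ℝ) + 1) = N ^ (r + 2) - 1 := by
    have := congrArg (Nat.cast : ℕ → ℝ) hk
    rw [Nat.cast_sub p2] at this
    push_cast at this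
    linarith
  have hl' : (lam : ℝ) * ((u : ℝ) + 1) = N ^ (r + 1) - 1 := by
    have := congrArg (Nat.cast : ℕ → ℝ) hl
    rw [Nat.cast_sub p3] at this
    push_cast at this
    linarith
  have hu : (0 : ℝ) ≤ (u : ℝ) := Nat.cast_nonneg _
  have hpos : (0 : ℝ) < (u : ℝ) + 1 := by linarith
  have hkl : (k : ℝ) - lam = N ^ (r + 1) := by
    have h1 : ((k : ℝ) - lam) * ((u : ℝ) + 1) = N ^ (r + 1) * ((u : ℝ) + 1) := by
      rw [sub_mul, hk', hl', hN]; ring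
    exact mul_right_cancel₀ hpos.ne' h1
  -- `v ≥ 7`
  have hv7 : (7 : ℝ) ≤ (Fintype.card G : ℝ) := by
    have h1 : N ^ 3 ≤ N ^ (r + 3) := pow_le_pow_right₀ (by linarith) (by omega)
    have h2 : (7 : ℝ) * ((u : ℝ) + 1) ≤ (Fintype.card G : ℝ) * ((u : ℝ) + 1) := by
      rw [hv']
      have h3 : (7 : ℝ) * ((u : ℝ) + 1) ≤ N ^ 3 - 1 := by
        rw [hN]; nlinarith [mul_nonneg hu hu, mul_nonneg (mul_nonneg hu hu) hu]
      linarith
    exact le_of_mul_le_mul_right h2 hpos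
  have hv2 : 1 < Fintype.card G := by
    have : (1 : ℝ) < (Fintype.card G : ℝ) := by linarith
    exact_mod_cast this
  have key := coset_bound D h hv2 hD
  rw [hkl] at key
  set v : ℝ := (Fintype.card G : ℝ) with hvdef
  set y : ℝ := Real.sqrt (N ^ (r + 1)) with hy
  have hy0 : 0 ≤ y := Real.sqrt_nonneg _
  have hyy : y * y = N ^ (r + 1) := Real.mul_self_sqrt (by positivity)
  have h3s : (1 : ℝ) ≤ 3 ^ s := one_le_pow₀ (by norm_num)
  -- `y (v - 1) ≤ (3 ^ s - 1) / 2 v` and `v ≤ 7 / 6 (v - 1)`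
  have h1 : v ≤ 7 / 6 * (v - 1) := by linarith
  have h2 : y * (v - 1) ≤ ((3 ^ s - 1) / 2 * (7 / 6)) * (v - 1) := by
    refine key.trans ?_
    have := mul_le_mul_of_nonneg_left h1 (show (0 : ℝ) ≤ (3 ^ s - 1) / 2 by linarith)
    linarith
  have h3 : y ≤ (3 ^ s - 1) / 2 * (7 / 6) := le_of_mul_le_mul_right h2 (by linarith)
  have h4 : 2 * (y * y) < (3 ^ s) * (3 ^ s) := by nlinarith
  have h5 : (3 : ℝ) ^ s * 3 ^ s = 9 ^ s := by
    rw [← mul_pow]; norm_num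
  rw [hyy, h5, hN] at h4
  have h6 : ((2 * (u + 2) ^ (r + 1) : ℕ) : ℝ) < ((9 ^ s : ℕ) : ℝ) := by
    push_cast; exact h4
  exact_mod_cast h6

end Q123.CD
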