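import Mathlib

/-!
# Difference sets and cosets

A difference set of order `n` (`n = k - lam`) in a finite group which is a Boolean combination of
`s` cosets satisfies `2 √n (v - 1) ≤ (3 ^ s - 1) v`.

Proof. The incidence matrix `M (x, g) = 1` if `x ∈ g D` satisfies the expander mixing inequality with
`√n`. The relation `x ∈ g a H` is a relation of equality of labels, and so is every conjunction of
such relations. Now expand `∑ M (M - k / v) = n (v - 1)`.
-/

set_option autoImplicit false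

open Finset

namespace Q123.CD

variable {G : Type*} [Group G] [Fintype G] [DecidableEq G]

/-- `D` is a difference set with parameters `k`, `lam`. -/
def IsDS (D : Finset G) (k lam : ℕ) : Prop :=
  D.card = k ∧ ∀ g : G, g ≠ 1 →
    ((D ×ˢ D).filter (fun p : G × G => p.1 * p.2⁻¹ = g)).card = lam

/-- Incidence of the point `x` with the block `g D`. -/
noncomputable def F (D : Finset G) (g x : G) : ℝ := if g⁻¹ * x ∈ D then 1 else 0

omit [Fintype G] in
lemma F_sq (D : Finset G) (g x : G) : F D g x * F D g x = F D g x := by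
  unfold F; split_ifs <;> simp

lemma sum_F (D : Finset G) (g : G) : ∑ x, F D g x = D.card := by
  unfold F
  rw [Finset.sum_boole]
  congr 1
  apply Finset.card_bij (fun x _ => g⁻¹ * x)
  · intro x hx; simpa using hx
  · intro a _ b _ h; exact mul_left_cancel h
  · intro b hb; exact ⟨g * b, by simpa using hb, by group⟩

lemma gram (D : Finset G) {k lam : ℕ} (h : IsDS D k lam) (g g' : G) :
    ∑ x, F D g x * F D g' x = if g = g' then (k : ℝ) else lam := by
  split_ifs with hg
  · subst hg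
    simp_rw [F_sq]
    rw [sum_F, h.1]
  · have h1 : ∀ x, F D g x * F D g' x = if (g⁻¹ * x ∈ D ∧ g'⁻¹ * x ∈ D) then (1 : ℝ) else 0 := by
      intro x
      unfold F
      by_cases h1 : g⁻¹ * x ∈ D <;> by_cases h2 : g'⁻¹ * x ∈ D <;> simp [h1, h2]
    simp_rw [h1]
    rw [Finset.sum_boole]
    have h2 := h.2 (g⁻¹ * g') (by
      intro h3
      apply hg
      have := congrArg (fun y => g * y) h3
      simpa using this.symm)
    rw [← h2]
    congr 1
    apply Finset.card_bij (fun x _ => (g⁻¹ * x, g'⁻¹ * x))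
    · intro x hx
      simp only [mem_filter, mem_univ, true_and] at hx
      simp only [mem_filter, mem_product]
      exact ⟨hx, by group⟩
    · intro a _ b _ hab
      simp only [Prod.mk.injEq] at hab
      exact mul_left_cancel hab.1
    · rintro ⟨a, b⟩ hab
      simp only [mem_filter, mem_product] at hab
      refine ⟨g * a, ?_, ?_⟩
      · simp only [mem_filter, mem_univ, true_and]
        have h3 : g'⁻¹ * (g * a) = b := by
          have h4 : a = g⁻¹ * g' * b := by
            rw [← hab.2]; group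
          rw [h4]; group
        rw [h3]
        exact ⟨by simpa using hab.1.1, hab.1.2⟩
      · have h3 : g'⁻¹ * (g * a) = b := by
          have h4 : a = g⁻¹ * g' * b := by
            rw [← hab.2]; group
          rw [h4]; group
        simp only [Prod.mk.injEq]
        exact ⟨by group, h3⟩

/-- The standard identity `k ^ 2 = (k - lam) + lam v`. -/
lemma basic (D : Finset G) {k lam : ℕ} (h : IsDS D k lam) :
    (k : ℝ) * k = ((k : ℝ) - lam) + lam * (Fintype.card G : ℝ) := by
  have h1 : ((D ×ˢ D).card : ℝ) =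
      ∑ g : G, (((D ×ˢ D).filter (fun p : G × G => p.1 * p.2⁻¹ = g)).card : ℝ) := by
    rw [← Nat.cast_sum, ← Finset.card_eq_sum_card_fiberwise (fun _ _ => mem_univ _)]
  rw [← Finset.add_sum_erase _ _ (mem_univ (1 : G))] at h1
  have h2 : ((D ×ˢ D).filter (fun p : G × G => p.1 * p.2⁻¹ = 1)).card = k := by
    rw [← h.1]
    apply Finset.card_bij (fun p _ => p.1)
    · intro p hp
      simp only [mem_filter, mem_product] at hp
      exact hp.1.1
    · rintro ⟨a, b⟩ ha ⟨c, d⟩ hc hac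
      simp only [mem_filter, mem_product] at ha hc hac
      have h3 : a = b := by
        have := ha.2; rwa [mul_inv_eq_one] at this
      have h4 : c = d := by
        have := hc.2; rwa [mul_inv_eq_one] at this
      subst h3 h4
      rw [hac]
    · intro b hb
      exact ⟨(b, b), by simp [hb], rfl⟩
  rw [h2, Finset.sum_congr rfl (fun g hg => by rw [h.2 g (Finset.ne_of_mem_erase hg)]),
    Finset.sum_const, Finset.card_erase_of_mem (mem_univ _), Finset.card_univ,
    Finset.card_product, h.1] at h1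
  have h3 : 1 ≤ Fintype.card G := Fintype.card_pos
  rw [nsmul_eq_mul, Nat.cast_sub h3] at h1
  push_cast at h1
  linarith

lemma order_nonneg (D : Finset G) {k lam : ℕ} (h : IsDS D k lam)
    (hv2 : (1 : ℝ) < (Fintype.card G : ℝ)) : (0 : ℝ) ≤ (k : ℝ) - lam := by
  have h10 : (k : ℝ) ≤ (Fintype.card G : ℝ) := by
    rw [← h.1]
    exact_mod_cast Finset.card_le_univ D
  by_contra hneg
  push Not at hneg
  have hb := basic D h
  have h11 : (k : ℝ) * k ≤ k * (Fintype.card G : ℝ) :=
    mul_le_mul_of_nonneg_left h10 (Nat.cast_nonneg _)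
  have h12 : ((lam : ℝ) - k) * ((Fintype.card G : ℝ) - 1) = k * k - k * (Fintype.card G : ℝ) := by
    rw [hb]; ring
  nlinarith

lemma second_moment (D : Finset G) {k lam : ℕ} (h : IsDS D k lam)
    (hv2 : (1 : ℝ) < (Fintype.card G : ℝ)) (Y : Finset G) :
    ∑ x, (∑ g ∈ Y, (F D g x - (k : ℝ) / (Fintype.card G : ℝ))) ^ 2 ≤
      ((k : ℝ) - lam) * (Y.card : ℝ) := by
  have hv : (0 : ℝ) < (Fintype.card G : ℝ) := by exact_mod_cast Fintype.card_pos
  set v : ℝ := (Fintype.card G : ℝ) with hvdef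
  have h1 : ∀ x, (∑ g ∈ Y, (F D g x - (k : ℝ) / v)) ^ 2 =
      (∑ g ∈ Y, ∑ g' ∈ Y, F D g x * F D g' x) - 2 * ((Y.card : ℝ) * (k / v)) * ∑ g ∈ Y, F D g x +
        ((Y.card : ℝ) * (k / v)) ^ 2 := by
    intro x
    rw [Finset.sum_sub_distrib, Finset.sum_const, nsmul_eq_mul, ← Finset.sum_mul_sum]
    ring
  simp_rw [h1]
  rw [Finset.sum_add_distrib, Finset.sum_sub_distrib, ← Finset.mul_sum,
    Finset.sum_const, Finset.card_univ, nsmul_eq_mul, ← hvdef]
  have h2 : ∑ x, ∑ g ∈ Y, ∑ g' ∈ Y, F D g x * F D g' x =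
      (Y.card : ℝ) * ((k : ℝ) - lam) + (Y.card : ℝ) ^ 2 * lam := by
    rw [Finset.sum_comm]
    have h3 : ∀ g ∈ Y, ∑ x, ∑ g' ∈ Y, F D g x * F D g' x = ((k : ℝ) - lam) + (Y.card : ℝ) * lam := by
      intro g hg
      rw [Finset.sum_comm]
      simp_rw [gram D h]
      have h4 : ∀ g' ∈ Y, (if g = g' then (k : ℝ) else lam) =
          (if g = g' then ((k : ℝ) - lam) else 0) + lam := by
        intro g' _
        split_ifs <;> ring
      rw [Finset.sum_congr rfl h4, Finset.sum_add_distrib, Finset.sum_ite_eq, if_pos hg,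
        Finset.sum_const, nsmul_eq_mul]
    rw [Finset.sum_congr rfl h3, Finset.sum_const, nsmul_eq_mul]
    ring
  have h5 : ∑ x, ∑ g ∈ Y, F D g x = (Y.card : ℝ) * k := by
    rw [Finset.sum_comm]
    simp_rw [sum_F, h.1]
    rw [Finset.sum_const, nsmul_eq_mul]
  rw [h2, h5]
  have hb := basic D h
  rw [← hvdef] at hb
  have h6 : v * ((Y.card : ℝ) * (k / v)) ^ 2 = (Y.card : ℝ) ^ 2 * (k * k) / v := by
    field_simp
  have h7 : 2 * ((Y.card : ℝ) * (k / v)) * ((Y.card : ℝ) * k) =
      2 * ((Y.card : ℝ) ^ 2 * (k * k) / v) := by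
    field_simp
  rw [h6, h7, hb]
  have h8 : (Y.card : ℝ) ^ 2 * (((k : ℝ) - lam) + lam * v) / v =
      (Y.card : ℝ) ^ 2 * ((k : ℝ) - lam) / v + (Y.card : ℝ) ^ 2 * lam := by
    field_simp
  rw [h8]
  have h9 : (0 : ℝ) ≤ (k : ℝ) - lam := order_nonneg D h hv2
  have h10 : (0 : ℝ) ≤ (Y.card : ℝ) ^ 2 * ((k : ℝ) - lam) / v := by positivity
  linarith

/-- Expander mixing. -/
lemma box (D : Finset G) {k lam : ℕ} (h : IsDS D k lam)
    (hv2 : (1 : ℝ) < (Fintype.card G : ℝ)) (X Y : Finset G) :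
    |∑ x ∈ X, ∑ g ∈ Y, (F D g x - (k : ℝ) / (Fintype.card G : ℝ))| ≤
      Real.sqrt ((k : ℝ) - lam) * (((X.card : ℝ) + (Y.card : ℝ)) / 2) := by
  have hn := order_nonneg D h hv2
  set T : G → ℝ := fun x => ∑ g ∈ Y, (F D g x - (k : ℝ) / (Fintype.card G : ℝ)) with hT
  have h1 : (∑ x ∈ X, T x) ^ 2 ≤ (X.card : ℝ) * ∑ x ∈ X, T x ^ 2 :=
    sq_sum_le_card_mul_sum_sq
  have h2 : ∑ x ∈ X, T x ^ 2 ≤ ∑ x, T x ^ 2 :=
    Finset.sum_le_sum_of_subset_of_nonneg (subset_univ _) (fun _ _ _ => sq_nonneg _)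
  have h3 : ∑ x, T x ^ 2 ≤ ((k : ℝ) - lam) * (Y.card : ℝ) := second_moment D h hv2 Y
  have h4 : (∑ x ∈ X, T x) ^ 2 ≤ (Real.sqrt ((k : ℝ) - lam) *
      (((X.card : ℝ) + (Y.card : ℝ)) / 2)) ^ 2 := by
    rw [mul_pow, Real.sq_sqrt hn]
    have h5 : (X.card : ℝ) * (Y.card : ℝ) ≤ (((X.card : ℝ) + (Y.card : ℝ)) / 2) ^ 2 := by
      nlinarith [sq_nonneg ((X.card : ℝ) - (Y.card : ℝ))]
    calc (∑ x ∈ X, T x) ^ 2 ≤ (X.card : ℝ) * (((k : ℝ) - lam) * (Y.card : ℝ)) :=
          h1.trans (mul_le_mul_of_nonneg_left (h2.trans h3) (Nat.cast_nonneg _))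
      _ = ((k : ℝ) - lam) * ((X.card : ℝ) * (Y.card : ℝ)) := by ring
      _ ≤ _ := mul_le_mul_of_nonneg_left h5 hn
  exact abs_le_of_sq_le_sq h4 (by positivity)

/-- A relation `f x = l g` of equality of labels. -/
lemma blocky (D : Finset G) {k lam : ℕ} (h : IsDS D k lam)
    (hv2 : (1 : ℝ) < (Fintype.card G : ℝ)) {L : Type*} [DecidableEq L] (f l : G → L) :
    |∑ x, ∑ g, (if f x = l g then (F D g x - (k : ℝ) / (Fintype.card G : ℝ)) else 0)| ≤
      Real.sqrt ((k : ℝ) - lam) * (Fintype.card G : ℝ) := by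
  classical
  set P : Finset L := univ.image f with hP
  set W : G → G → ℝ := fun x g => F D g x - (k : ℝ) / (Fintype.card G : ℝ) with hW
  have h1 : ∑ x, ∑ g, (if f x = l g then W x g else 0) =
      ∑ c ∈ P, ∑ x ∈ univ.filter (fun x => f x = c), ∑ g ∈ univ.filter (fun g => l g = c), W x g := by
    rw [← Finset.sum_fiberwise_of_maps_to (s := univ) (t := P) (g := f)
      (fun x _ => mem_image_of_mem f (mem_univ x))]
    refine Finset.sum_congr rfl fun c _ => Finset.sum_congr rfl fun x hx => ?_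
    rw [mem_filter] at hx
    rw [Finset.sum_filter]
    refine Finset.sum_congr rfl fun g _ => ?_
    rw [hx.2]
    by_cases hg : l g = c
    · rw [if_pos hg.symm, if_pos hg]
    · rw [if_neg (fun h => hg h.symm), if_neg hg]
  rw [h1]
  refine (Finset.abs_sum_le_sum_abs _ _).trans ?_
  have h2 : ∀ c ∈ P, |∑ x ∈ univ.filter (fun x => f x = c),
      ∑ g ∈ univ.filter (fun g => l g = c), W x g| ≤ Real.sqrt ((k : ℝ) - lam) *
        ((((univ.filter (fun x => f x = c)).card : ℝ) +
          ((univ.filter (fun g => l g = c)).card : ℝ)) / 2) :=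
    fun c _ => box D h hv2 _ _
  refine (Finset.sum_le_sum h2).trans ?_
  rw [← Finset.mul_sum]
  refine mul_le_mul_of_nonneg_left ?_ (Real.sqrt_nonneg _)
  rw [← Finset.sum_div, Finset.sum_add_distrib]
  have h3 : ∑ c ∈ P, ((univ.filter (fun x => f x = c)).card : ℝ) = (Fintype.card G : ℝ) := by
    rw [← Nat.cast_sum, ← Finset.card_eq_sum_card_fiberwise
      (fun x _ => mem_image_of_mem f (mem_univ x)), Finset.card_univ]
  have h4 : ∑ c ∈ P, ((univ.filter (fun g => l g = c)).card : ℝ) ≤ (Fintype.card G : ℝ) := by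
    rw [← Nat.cast_sum]
    have : ∑ c ∈ P, (univ.filter (fun g => l g = c)).card ≤ Fintype.card G := by
      rw [← Finset.card_biUnion]
      · exact Finset.card_le_univ _
      · intro a _ b _ hab
        rw [Function.onFun, Finset.disjoint_filter]
        intro x _ h1 h2
        exact hab (h1.symm.trans h2)
    exact_mod_cast this
  linarith

/-- The main identity: `∑ M (M - k / v) = n (v - 1)`. -/
lemma total (D : Finset G) {k lam : ℕ} (h : IsDS D k lam) :
    ∑ x, ∑ g, F D g x * (F D g x - (k : ℝ) / (Fintype.card G : ℝ)) =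
      ((k : ℝ) - lam) * ((Fintype.card G : ℝ) - 1) := by
  have hv : (0 : ℝ) < (Fintype.card G : ℝ) := by exact_mod_cast Fintype.card_pos
  rw [Finset.sum_comm]
  have h1 : ∀ g, ∑ x, F D g x * (F D g x - (k : ℝ) / (Fintype.card G : ℝ)) =
      (k : ℝ) - k * (k / (Fintype.card G : ℝ)) := by
    intro g
    simp_rw [mul_sub, F_sq]
    rw [Finset.sum_sub_distrib, ← Finset.sum_mul, sum_F, h.1]
  simp_rw [h1]
  rw [Finset.sum_const, Finset.card_univ, nsmul_eq_mul]
  have hb := basic D h
  have h2 : (Fintype.card G : ℝ) * ((k : ℝ) - k * (k / (Fintype.card G : ℝ))) =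
      (Fintype.card G : ℝ) * k - k * k := by
    field_simp
  rw [h2, hb]
  ring

/-- The constant function gives nothing. -/
lemma total_one (D : Finset G) {k lam : ℕ} (h : IsDS D k lam) :
    ∑ x, ∑ g, (F D g x - (k : ℝ) / (Fintype.card G : ℝ)) = 0 := by
  have hv : (0 : ℝ) < (Fintype.card G : ℝ) := by exact_mod_cast Fintype.card_pos
  rw [Finset.sum_comm]
  refine Finset.sum_eq_zero fun g _ => ?_
  rw [Finset.sum_sub_distrib, sum_F, h.1, Finset.sum_const, Finset.card_univ, nsmul_eq_mul]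
  field_simp
  ring

/-- Linear combinations of label relations. -/
lemma combination (D : Finset G) {k lam : ℕ} (h : IsDS D k lam)
    (hv2 : (1 : ℝ) < (Fintype.card G : ℝ)) {ι : Type*} (I : Finset ι) (c₀ : ℝ) (c : ι → ℝ)
    {L : ι → Type*} (f l : ∀ i, G → L i) [∀ i x g, Decidable (f i x = l i g)]
    (hF : ∀ x g, F D g x = c₀ + ∑ i ∈ I, c i * (if f i x = l i g then 1 else 0)) :
    Real.sqrt ((k : ℝ) - lam) * ((Fintype.card G : ℝ) - 1) ≤
      (∑ i ∈ I, |c i|) * (Fintype.card G : ℝ) := by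
  classical
  have hn := order_nonneg D h hv2
  rcases eq_or_lt_of_le hn with hn0 | hn0
  · rw [← hn0, Real.sqrt_zero, zero_mul]
    positivity
  have h1 : ((k : ℝ) - lam) * ((Fintype.card G : ℝ) - 1) =
      ∑ i ∈ I, c i * ∑ x, ∑ g,
        (if f i x = l i g then (F D g x - (k : ℝ) / (Fintype.card G : ℝ)) else 0) := by
    rw [← total D h]
    have h2 : ∀ x g, F D g x * (F D g x - (k : ℝ) / (Fintype.card G : ℝ)) =
        c₀ * (F D g x - (k : ℝ) / (Fintype.card G : ℝ)) + ∑ i ∈ I, c i *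
          (if f i x = l i g then (F D g x - (k : ℝ) / (Fintype.card G : ℝ)) else 0) := by
      intro x g
      rw [hF x g, add_mul, Finset.sum_mul]
      congr 1
      refine Finset.sum_congr rfl fun i _ => ?_
      split_ifs <;> ring
    simp_rw [h2, Finset.sum_add_distrib, ← Finset.mul_sum]
    rw [total_one D h, mul_zero, zero_add]
    simp_rw [Finset.mul_sum]
    have h3 : ∀ x : G, ∑ g, ∑ i ∈ I, c i *
        (if f i x = l i g then (F D g x - (k : ℝ) / (Fintype.card G : ℝ)) else 0) =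
        ∑ i ∈ I, ∑ g, c i *
        (if f i x = l i g then (F D g x - (k : ℝ) / (Fintype.card G : ℝ)) else 0) :=
      fun x => Finset.sum_comm
    simp_rw [h3]
    rw [Finset.sum_comm]
  have h4 : ((k : ℝ) - lam) * ((Fintype.card G : ℝ) - 1) ≤
      (∑ i ∈ I, |c i|) * (Real.sqrt ((k : ℝ) - lam) * (Fintype.card G : ℝ)) := by
    rw [h1, Finset.sum_mul]
    refine Finset.sum_le_sum fun i _ => ?_
    refine (le_abs_self _).trans ?_
    rw [abs_mul]
    refine mul_le_mul_of_nonneg_left ?_ (abs_nonneg _)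
    have := blocky D h hv2 (f i) (l i)
    refine le_trans (le_of_eq ?_) this
    refine congrArg abs ?_
    refine Finset.sum_congr rfl fun x _ => ?_
    refine Finset.sum_congr rfl fun g _ => ?_
    by_cases hx : f i x = l i g
    · rw [if_pos hx, if_pos hx]
    · rw [if_neg hx, if_neg hx]
  have h5 : 0 < Real.sqrt ((k : ℝ) - lam) := Real.sqrt_pos.2 hn0
  have h6 : Real.sqrt ((k : ℝ) - lam) * Real.sqrt ((k : ℝ) - lam) = (k : ℝ) - lam :=
    Real.mul_self_sqrt hn
  have h7 : Real.sqrt ((k : ℝ) - lam) *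
      (Real.sqrt ((k : ℝ) - lam) * ((Fintype.card G : ℝ) - 1)) ≤
      Real.sqrt ((k : ℝ) - lam) * ((∑ i ∈ I, |c i|) * (Fintype.card G : ℝ)) := by
    rw [← mul_assoc, h6]
    linarith
  exact le_of_mul_le_mul_left h7 h5

end Q123.CD
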